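import Mathlib

namespace Pool.Agent.Results.MP_a407c4_co.NotMonotone

/-- One edit operation: insert, delete or substitute a single character. -/
inductive Step {α : Type} : List α → List α → Prop
  | ins (u v : List α) (a : α) : Step (u ++ v) (u ++ a :: v)
  | del (u v : List α) (a : α) : Step (u ++ a :: v) (u ++ v)
  | sub (u v : List α) (a b : α) : Step (u ++ a :: v) (u ++ b :: v)

/-- `Reach k s t`: the string `t` is obtained from `s` by exactly `k` edit operations
(intermediate strings of any length). -/
inductive Reach {α : Type} : ℕ → List α → List α → Prop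
  | refl (s : List α) : Reach 0 s s
  | head {k : ℕ} {s s' t : List α} : Step s s' → Reach k s' t → Reach (k + 1) s t

/-- The edit (Levenshtein) distance: the least number of edit operations turning `s` into `t`. -/
noncomputable def edit {α : Type} (s t : List α) : ℕ := sInf {k | Reach k s t}

/-- `N_n^r(s)`: the strings of length exactly `n` at edit distance at most `r` from `s`. -/
def Nbhd {α : Type} (n r : ℕ) (s : List α) : Set (List α) := {v | v.length = n ∧ edit s v ≤ r}

/-- `B` is `(d,r)`-guaranteed (for strings of length `n`). -/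
def Guaranteed {α : Type} (n d r : ℕ) (B : Set (List α)) : Prop :=
  ∀ s t : List α, s.length = n → t.length = n → edit s t ≤ d →
    (Nbhd n r s ∩ Nbhd n r t ∩ B).Nonempty

/-! ### The recursive formula for the edit distance -/

section
variable {α : Type} [DecidableEq α]

/-- recursive edit distance -/
def lev : List α → List α → ℕ
  | [], t => t.length
  | _ :: s, [] => s.length + 1
  | x :: s, y :: t => min (lev s (y :: t) + 1)
      (min (lev (x :: s) t + 1) (lev s t + if x = y then 0 else 1))
termination_by s t => s.length + t.length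

lemma lev_nil_left (t : List α) : lev [] t = t.length := by rw [lev]

lemma lev_nil_right (s : List α) : lev s [] = s.length := by
  cases s with
  | nil => rw [lev]
  | cons x s => rw [lev]; rfl

lemma lev_cons (x y : α) (s t : List α) : lev (x :: s) (y :: t) = min (lev s (y :: t) + 1)
      (min (lev (x :: s) t + 1) (lev s t + if x = y then 0 else 1)) := by rw [lev]

lemma lev_cons_left_le (x : α) (s t : List α) : lev (x :: s) t ≤ lev s t + 1 := by
  cases t with
  | nil => rw [lev_nil_right, lev_nil_right]; simp
  | cons y t => rw [lev_cons]; exact min_le_left _ _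

lemma lev_cons_right_le (y : α) (s t : List α) : lev s (y :: t) ≤ lev s t + 1 := by
  cases s with
  | nil => rw [lev_nil_left, lev_nil_left]; simp
  | cons x s => rw [lev_cons]; exact (min_le_right _ _).trans (min_le_left _ _)

lemma lev_le_cons_left (x : α) (s t : List α) : lev s t ≤ lev (x :: s) t + 1 := by
  induction t with
  | nil => rw [lev_nil_right, lev_nil_right]; simp; omega
  | cons y t ih =>
    have h1 := lev_cons_right_le y s t
    rw [lev_cons x y s t]
    have h3 : lev s t ≤ lev s t + if x = y then 0 else 1 := Nat.le_add_right _ _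
    omega

lemma lev_cons_congr (x : α) {s s' : List α} (h : ∀ t, lev s t ≤ lev s' t + 1) (t : List α) :
    lev (x :: s) t ≤ lev (x :: s') t + 1 := by
  induction t with
  | nil =>
    have := h []
    rw [lev_nil_right, lev_nil_right] at *
    simp; omega
  | cons y t ih =>
    have h1 := h (y :: t)
    have h2 := h t
    rw [lev_cons x y s t, lev_cons x y s' t]
    split_ifs <;> omega

lemma lev_subst (a b : α) (v t : List α) : lev (a :: v) t ≤ lev (b :: v) t + 1 := by
  induction t with
  | nil => rw [lev_nil_right, lev_nil_right]; simp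
  | cons y t ih =>
    rw [lev_cons a y v t, lev_cons b y v t]
    split_ifs <;> omega

lemma lev_append_congr (u : List α) {s s' : List α} (h : ∀ t, lev s t ≤ lev s' t + 1) :
    ∀ t, lev (u ++ s) t ≤ lev (u ++ s') t + 1 := by
  induction u with
  | nil => exact h
  | cons x u ih => exact lev_cons_congr x ih

lemma lev_step {s s' : List α} (h : Step s s') (t : List α) : lev s t ≤ lev s' t + 1 := by
  cases h with
  | ins u v a => exact lev_append_congr u (fun t => lev_le_cons_left a v t) t
  | del u v a => exact lev_append_congr u (fun t => lev_cons_left_le a v t) t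
  | sub u v a b => exact lev_append_congr u (fun t => lev_subst a b v t) t

lemma lev_self (s : List α) : lev s s = 0 := by
  induction s with
  | nil => rw [lev_nil_left]; rfl
  | cons x s ih => rw [lev_cons, if_pos rfl, ih]; simp

lemma lev_le_of_reach {k : ℕ} {s t : List α} (h : Reach k s t) : lev s t ≤ k := by
  induction h with
  | refl s => rw [lev_self]
  | head h1 _ ih => exact (lev_step h1 _).trans (by omega)

omit [DecidableEq α] in
lemma Step.cons (x : α) {s s' : List α} (h : Step s s') : Step (x :: s) (x :: s') := by
  cases h with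
  | ins u v a => exact Step.ins (x :: u) v a
  | del u v a => exact Step.del (x :: u) v a
  | sub u v a b => exact Step.sub (x :: u) v a b

omit [DecidableEq α] in
lemma Reach.cons (x : α) {k : ℕ} {s t : List α} (h : Reach k s t) :
    Reach k (x :: s) (x :: t) := by
  induction h with
  | refl s => exact Reach.refl _
  | head h1 _ ih => exact Reach.head (h1.cons x) ih

omit [DecidableEq α] in
lemma Reach.tail {k : ℕ} {s t t' : List α} (h : Reach k s t) (h2 : Step t t') :
    Reach (k + 1) s t' := by
  induction h with
  | refl s => exact Reach.head h2 (Reach.refl _)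
  | head h1 _ ih => exact Reach.head h1 (ih h2)

omit [DecidableEq α] in
lemma reach_nil_left (t : List α) : Reach t.length [] t := by
  induction t with
  | nil => exact Reach.refl _
  | cons y t ih => exact ih.tail (Step.ins [] t y)

omit [DecidableEq α] in
lemma reach_nil_right (s : List α) : Reach s.length s [] := by
  induction s with
  | nil => exact Reach.refl _
  | cons y s ih => exact Reach.head (Step.del [] s y) ih

lemma reach_lev (s t : List α) : Reach (lev s t) s t := by
  induction s generalizing t with
  | nil => rw [lev_nil_left]; exact reach_nil_left t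
  | cons x s ihs =>
    induction t with
    | nil => rw [lev_nil_right]; exact reach_nil_right _
    | cons y t iht =>
      rw [lev_cons]
      rcases min_choice (lev s (y :: t) + 1)
        (min (lev (x :: s) t + 1) (lev s t + if x = y then 0 else 1)) with h | h
      · rw [h]; exact Reach.head (Step.del [] s x) (ihs (y :: t))
      · rw [h]
        rcases min_choice (lev (x :: s) t + 1) (lev s t + if x = y then 0 else 1) with h' | h'
        · rw [h']; exact iht.tail (Step.ins [] t y)
        · rw [h']
          split_ifs with hxy
          · subst hxy; exact (ihs t).cons x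
          · exact Reach.head (Step.sub [] s x y) ((ihs t).cons y)

lemma edit_eq_lev (s t : List α) : edit s t = lev s t := by
  apply le_antisymm
  · exact Nat.sInf_le (reach_lev s t)
  · exact le_csInf ⟨_, reach_lev s t⟩ (fun k hk => lev_le_of_reach hk)

lemma lev_comm (s t : List α) : lev s t = lev t s := by
  induction s generalizing t with
  | nil => rw [lev_nil_left, lev_nil_right]
  | cons x s ihs =>
    induction t with
    | nil => rw [lev_nil_left, lev_nil_right]
    | cons y t iht =>
      rw [lev_cons, lev_cons, ihs (y :: t), ihs t, iht]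
      by_cases h : x = y
      · rw [if_pos h, if_pos h.symm]; omega
      · rw [if_neg h, if_neg (fun h' => h h'.symm)]; omega

/-! ### Fast evaluation by rows -/

/-- new row -/
def stepRow (x : α) : List α → List ℕ → List ℕ
  | [], r => [r.headD 0 + 1]
  | y :: ys, r =>
    match stepRow x ys r.tail with
    | [] => []
    | m :: ms => Nat.min (r.headD 0 + 1) (Nat.min (m + 1)
        (r.tail.headD 0 + (if x = y then 0 else 1))) :: m :: ms

/-- the row of lengths of the suffixes of `ys` -/
def base : List α → List ℕ
  | [] => [0]
  | _ :: ys => (ys.length + 1) :: base ys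

/-- the row of distances from the suffixes of `ys` -/
def row : List α → List α → List ℕ
  | [], ys => base ys
  | x :: xs, ys => stepRow x ys (row xs ys)

/-- the list of `lev s` over the suffixes -/
def sufs (s : List α) : List α → List ℕ
  | [] => [lev s []]
  | y :: ys => lev s (y :: ys) :: sufs s ys

lemma sufs_head (s ys : List α) : (sufs s ys).headD 0 = lev s ys := by
  cases ys <;> rfl

lemma sufs_ne (s ys : List α) : ∃ ms, sufs s ys = lev s ys :: ms := by
  cases ys with
  | nil => exact ⟨[], rfl⟩
  | cons y ys => exact ⟨_, rfl⟩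

lemma stepRow_sufs (x : α) (s ys : List α) : stepRow x ys (sufs s ys) = sufs (x :: s) ys := by
  induction ys with
  | nil => simp [stepRow, sufs, lev_nil_right]
  | cons y ys ih =>
    have h1 : (sufs s (y :: ys)).tail = sufs s ys := rfl
    rw [stepRow, h1, ih]
    obtain ⟨ms, hms⟩ := sufs_ne (x :: s) ys
    rw [hms]
    have h2 : sufs (x :: s) (y :: ys) = lev (x :: s) (y :: ys) :: sufs (x :: s) ys := rfl
    rw [h2, hms]
    have h3 : (sufs s (y :: ys)).headD 0 = lev s (y :: ys) := rfl
    simp only [h3, sufs_head]
    rw [lev_cons]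

lemma row_eq (s ys : List α) : row s ys = sufs s ys := by
  induction s with
  | nil =>
    rw [row]
    induction ys with
    | nil => simp [base, sufs, lev_nil_left]
    | cons y ys ih => rw [base, sufs, ih, lev_nil_left]; rfl
  | cons x s ih => rw [row, ih, stepRow_sufs]

/-- fast distance -/
def fast (s t : List α) : ℕ := (row s t).headD 0

lemma fast_eq (s t : List α) : fast s t = lev s t := by
  unfold fast; rw [row_eq, sufs_head]

end

/-! ### The finite check for binary strings of length 8 -/

/-- binary string of length 8 with code `m` -/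
def wd (m : ℕ) : List Bool :=
  [m.testBit 7, m.testBit 6, m.testBit 5, m.testBit 4, m.testBit 3, m.testBit 2, m.testBit 1,
    m.testBit 0]

/-- distance of codes -/
def dist (a b : ℕ) : ℕ := fast (wd a) (wd b)

/-- code of `00110011` -/
def sC : ℕ := 51
/-- code of `11001100` -/
def tC : ℕ := 204

/-- the strings outside the forbidden set which are used -/
def V : List ℕ := [43, 212, 113, 142, 19, 236, 61, 194, 33, 222, 123, 132, 23, 200, 188, 55, 35]

/-- the strings `a` of the forbidden set with a mask of some elements of `V` at distance `≤ 3` -/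
def E : List (ℕ × ℕ) := [
(0, 76176), (4, 72090), (5, 104913), (6, 104857), (8, 10521), (9, 80209), (10, 80281), (12,
30824), (13, 104793), (14, 105049), (15, 102489), (16, 80150), (17, 110933), (18, 113049), (20,
63835), (21, 104799), (22, 105051), (24, 26972), (25, 105821), (26, 40537), (27, 103513), (28,
23114), (29, 54361), (30, 53849), (32, 76165), (34, 100757), (36, 125299), (37, 104789), (38,
104793), (39, 102745), (40, 92535), (41, 105815), (42, 105819), (44, 55659), (45, 120177), (46,
119417), (48, 115028), (49, 103765), (50, 103765), (51, 103765), (52, 55655), (53, 120149), (54,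
120441), (56, 17733), (57, 116053), (58, 116317), (60, 50796), (65, 76180), (66, 76188), (68,
76202), (69, 72095), (70, 72603), (71, 102809), (72, 10678), (73, 81303), (74, 81819), (75,
112017), (76, 27178), (77, 111984), (78, 127720), (79, 104025), (80, 76182), (81, 79255), (82,
81815), (83, 103829), (84, 31527), (85, 103767), (86, 120571), (87, 104031), (88, 26406), (89,
124279), (90, 59135), (91, 104021), (92, 26222), (93, 54863), (94, 54859), (95, 54865), (96,
76198), (97, 75141), (98, 77191), (99, 99733), (100, 27046), (101, 108023), (102, 108223), (103,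
104221), (104, 26023), (105, 124407), (106, 124647), (107, 104279), (108, 58982), (109, 55143),
(110, 54891), (111, 104033), (112, 26022), (114, 115956), (115, 103765), (116, 58470), (117,
54631), (118, 54887), (119, 103541), (120, 25702), (121, 17765), (122, 18023), (125, 50788),
(126, 50784), (129, 76176), (130, 76184), (133, 72091), (134, 72346), (135, 104601), (136,
26810), (137, 14747), (138, 15003), (139, 112793), (140, 27306), (141, 30968), (143, 39513),
(144, 92562), (145, 80279), (146, 80795), (147, 113049), (148, 31659), (149, 129499), (150,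
64251), (151, 105051), (152, 27438), (153, 125311), (154, 60155), (155, 104025), (156, 27242),
(157, 56907), (158, 55882), (159, 54873), (160, 92578), (161, 76167), (162, 76175), (163,
100765), (164, 27050), (165, 125439), (166, 125627), (167, 105241), (168, 27055), (169, 92663),
(170, 92843), (171, 104219), (172, 27242), (173, 57195), (174, 55915), (175, 120425), (176,
27046), (177, 123348), (178, 125616), (179, 103701), (180, 60002), (181, 57191), (182, 56939),
(183, 120441), (184, 25190), (185, 18279), (186, 18031), (187, 116309), (189, 50796), (190,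
50792), (195, 76188), (197, 76206), (198, 76458), (199, 72330), (201, 10678), (202, 10922),
(203, 79515), (204, 27306), (205, 10922), (206, 27306), (207, 12968), (209, 74166), (210,
10930), (211, 79511), (213, 16039), (214, 32427), (215, 38587), (216, 25254), (217, 26278),
(218, 26282), (219, 42675), (221, 26218), (223, 54858), (225, 74150), (226, 75942), (227,
66949), (228, 26790), (229, 11686), (230, 11950), (231, 100012), (233, 26023), (234, 26287),
(235, 108199), (237, 58982), (238, 58026), (239, 34345), (240, 24742), (241, 26022), (242,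
26278), (243, 99476), (245, 50790), (246, 50850), (247, 38438), (249, 26214), (250, 26338),
(251, 18021), (255, 50784)]

set_option maxRecDepth 100000 in
lemma checkV : ∀ v ∈ V, 5 ≤ dist sC v ∨ 5 ≤ dist tC v := by decide +kernel

set_option maxRecDepth 100000 in
lemma check0 : ∀ a < 256, (E.any (fun e => e.1 == a)) = true ∨ 5 ≤ dist sC a ∨ 5 ≤ dist tC a := by
  decide +kernel

set_option maxRecDepth 100000 in
lemma check1 : ∀ e ∈ E, ∀ i : Fin 17, e.2.testBit i = true → dist e.1 (V.getD i 0) ≤ 3 := by
  decide +kernel

set_option maxRecDepth 100000 in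
lemma check2 : (E.all (fun x => E.all (fun y =>
    (x.2 &&& y.2 &&& 131071 != 0) || Nat.ble 4 (dist x.1 y.1)))) = true := by
  decide +kernel

lemma wd_surj (w : List Bool) (h : w.length = 8) : ∃ m < 256, w = wd m := by
  match w, h with
  | [a, b, c, d, e, f, g, i], _ =>
    refine ⟨a.toNat * 128 + b.toNat * 64 + c.toNat * 32 + d.toNat * 16 + e.toNat * 8 +
      f.toNat * 4 + g.toNat * 2 + i.toNat, ?_, ?_⟩
    · revert a b c d e f g i; decide +kernel
    · revert a b c d e f g i; decide +kernel

lemma dist_eq (a b : ℕ) : dist a b = edit (wd a) (wd b) := by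
  rw [edit_eq_lev, ← fast_eq]; rfl

/-- the set `B` -/
def B : Set (List Bool) :=
  {w | w.length = 8 ∧ ¬ (edit (wd sC) w ≤ 4 ∧ edit (wd tC) w ≤ 4)}

lemma wd_len (m : ℕ) : (wd m).length = 8 := rfl

lemma exists_bit {m : ℕ} (h : m &&& 131071 ≠ 0) : ∃ i : Fin 17, m.testBit i = true := by
  by_contra hcon
  push Not at hcon
  apply h
  apply Nat.eq_of_testBit_eq
  intro j
  rw [Nat.testBit_and, Nat.zero_testBit]
  by_cases hj : j < 17
  · have := hcon ⟨j, hj⟩
    simp only at this
    simp [Bool.eq_false_iff.mpr this]
  · have h2 : Nat.testBit 131071 j = false := by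
      apply Nat.testBit_lt_two_pow
      calc 131071 < 2 ^ 17 := by norm_num
        _ ≤ 2 ^ j := Nat.pow_le_pow_right (by norm_num) (by omega)
    rw [h2]; simp

lemma in_E {a : ℕ} (ha : a < 256) (h : wd a ∉ B) : ∃ m, (a, m) ∈ E := by
  have h1 : edit (wd sC) (wd a) ≤ 4 ∧ edit (wd tC) (wd a) ≤ 4 := by
    by_contra hcon; exact h ⟨rfl, hcon⟩
  rcases check0 a ha with h2 | h2 | h2
  · rw [List.any_eq_true] at h2
    obtain ⟨⟨x, m⟩, hx, hxa⟩ := h2
    have : x = a := by simpa using hxa
    subst this
    exact ⟨m, hx⟩
  · rw [dist_eq] at h2; omega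
  · rw [dist_eq] at h2; omega

lemma V_mem_B {v : ℕ} (hv : v ∈ V) : wd v ∈ B := by
  refine ⟨rfl, ?_⟩
  rintro ⟨h1, h2⟩
  rcases checkV v hv with h | h
  · rw [dist_eq] at h; omega
  · rw [dist_eq] at h; omega

lemma V_get (i : Fin 17) : V.getD i 0 ∈ V := by
  revert i; decide

lemma three : Guaranteed 8 3 3 B := by
  intro s t hs ht hst
  obtain ⟨a, ha, rfl⟩ := wd_surj s hs
  obtain ⟨b, hb, rfl⟩ := wd_surj t ht
  by_cases haB : wd a ∈ B
  · refine ⟨wd a, ⟨⟨rfl, ?_⟩, ⟨rfl, ?_⟩⟩, haB⟩
    · rw [edit_eq_lev, lev_self]; omega
    · rw [edit_eq_lev, lev_comm, ← edit_eq_lev]; exact hst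
  by_cases hbB : wd b ∈ B
  · refine ⟨wd b, ⟨⟨rfl, hst⟩, ⟨rfl, ?_⟩⟩, hbB⟩
    rw [edit_eq_lev, lev_self]; omega
  obtain ⟨m, hm⟩ := in_E ha haB
  obtain ⟨k, hk⟩ := in_E hb hbB
  have h2 := check2
  rw [List.all_eq_true] at h2
  have h3 := h2 _ hm
  rw [List.all_eq_true] at h3
  have h4 := h3 _ hk
  rw [Bool.or_eq_true] at h4
  rcases h4 with h4 | h4
  · have h5 : m &&& k &&& 131071 ≠ 0 := by simpa using h4
    obtain ⟨i, hi⟩ := exists_bit h5
    rw [Nat.testBit_and, Bool.and_eq_true] at hi
    have e1 := check1 _ hm i hi.1
    have e2 := check1 _ hk i hi.2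
    simp only at e1 e2
    rw [dist_eq] at e1 e2
    exact ⟨wd (V.getD i 0), ⟨⟨rfl, e1⟩, ⟨rfl, e2⟩⟩, V_mem_B (V_get i)⟩
  · exfalso
    have h5 : 4 ≤ dist a b := Nat.le_of_ble_eq_true h4
    rw [dist_eq] at h5
    omega

lemma not_four : ¬ Guaranteed 8 4 4 B := by
  intro h
  have h1 : edit (wd sC) (wd tC) ≤ 4 := by
    rw [← dist_eq]; decide +kernel
  obtain ⟨v, ⟨hv1, hv2⟩, hv3⟩ := h (wd sC) (wd tC) rfl rfl h1
  exact hv3.2 ⟨hv1.2, hv2.2⟩

/-- For binary strings of length `8` there is a set `B` which is `(3,3)`-guaranteed but not
`(4,4)`-guaranteed. -/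
theorem result : ∃ (n r : ℕ) (B : Set (List Bool)), 1 ≤ n ∧ 1 ≤ r ∧ (∀ w ∈ B, w.length = n) ∧
    Guaranteed n r r B ∧ ¬ Guaranteed n (r + 1) (r + 1) B :=
  ⟨8, 3, B, by norm_num, by norm_num, fun _ hw => hw.1, three, not_four⟩

end Pool.Agent.Results.MP_a407c4_co.NotMonotone
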